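import Pool.Agent.TH970.MDS.Defs

/-!
# Products in the lattice `h ≡ j s mod N`

Lemma G of the project on the multiplicative Dirichlet spectrum (requested by helper970).
-/

set_option autoImplicit false

namespace Pool.Agent.TH286.MDS

open Filter Topology

/-- Values of the form `x² - C x y + y²` that are not positive are at most `-(C - 2)`. -/
theorem form_aux (C : ℤ) (hC : 3 ≤ C) : ∀ (m : ℕ) (x y : ℤ), x.toNat ≤ m → 1 ≤ y → y ≤ x →
    x ^ 2 - C * x * y + y ^ 2 ≤ 0 → x ^ 2 - C * x * y + y ^ 2 ≤ -(C - 2) := by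
  intro m
  induction m with
  | zero =>
    intro x y hm hy hyx _
    omega
  | succ m ih =>
    intro x y hm hy hyx hle
    by_cases hc : 2 * x ≤ C * y
    · -- compare with the value at `(y, y)`
      have h1 : (x - y) * (x + y - C * y) ≤ 0 := by
        apply mul_nonpos_of_nonneg_of_nonpos
        · linarith
        · linarith
      have h2 : 1 ≤ y ^ 2 := by nlinarith
      nlinarith
    · push Not at hc
      have hx : 0 < x := by linarith
      have h1 : 0 < x * (C * y - x) := by nlinarith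
      have h2 : 0 < C * y - x := (mul_pos_iff_of_pos_left hx).mp h1
      have hlt : y < x := by
        rcases lt_or_eq_of_le hyx with h | h
        · exact h
        · subst h
          nlinarith
      have hinv : (C * y - x) ^ 2 - C * (C * y - x) * y + y ^ 2 = x ^ 2 - C * x * y + y ^ 2 := by
        ring
      by_cases hxy : y ≤ C * y - x
      · have h3 := ih (C * y - x) y (by omega) hy hxy (by rw [hinv]; exact hle)
        rw [hinv] at h3
        exact h3
      · push Not at hxy
        have hinv' : y ^ 2 - C * y * (C * y - x) + (C * y - x) ^ 2 = x ^ 2 - C * x * y + y ^ 2 := by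
          ring
        have h3 := ih y (C * y - x) (by omega) (by omega) (by omega) (by rw [hinv']; exact hle)
        rw [hinv'] at h3
        exact h3

theorem form_le (C : ℤ) (hC : 3 ≤ C) (x y : ℤ) (hx : 0 < x)
    (h : x ^ 2 - C * x * y + y ^ 2 ≤ 0) : x ^ 2 - C * x * y + y ^ 2 ≤ -(C - 2) := by
  have hy : 0 < y := by
    by_contra hcon
    push Not at hcon
    have h1 : 0 ≤ x * (-y) := mul_nonneg hx.le (by linarith)
    have h2 : 0 ≤ C * (x * (-y)) := mul_nonneg (by linarith) h1
    nlinarith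
  rcases le_total y x with hyx | hxy
  · exact form_aux C hC x.toNat x y le_rfl hy hyx h
  · have h1 : y ^ 2 - C * y * x + x ^ 2 = x ^ 2 - C * x * y + y ^ 2 := by ring
    have h2 := form_aux C hC y.toNat y x le_rfl hx hxy (by rw [h1]; exact h)
    rw [h1] at h2
    exact h2

/-- the choice of the size of `N` -/
theorem exE (C : ℤ) (hC : 3 ≤ C) (θ De v : ℝ) (hθ0 : 0 < θ) (hθh : θ < 1 / 2)
    (hq : θ ^ 2 + 1 = C * θ) (hDe : De * θ = 1 - θ ^ 2) (hDe0 : 0 < De) (h3 : C = 3 → 1 / 3 < θ)
    (hv0 : 0 < v) (hv : v < θ) :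
    ∃ E : ℝ, 0 < E ∧ ∀ e : ℝ, 0 < e → e < E →
      (1 + v) * e < θ - v ∧
      (C : ℝ) ^ 2 * e ^ 2 + (v / (C - v)) ^ 2 + v * (De + 2 * e) * (1 + v / (C - v)) < 1 ∧
      (C : ℝ) ^ 2 * e ^ 2 + (θ - v * e) * (θ + C * e) + v * (De + 2 * e) < 1 ∧
      (4 ≤ C → 2 * v / (2 - v) * (De + 2 * e) < C - 2) ∧
      (C = 3 → 3 * v / (3 - v) * (De + 2 * e) < 1) := by
  have hCr : (3 : ℝ) ≤ C := by exact_mod_cast hC
  have hvh : v < 1 / 2 := hv.trans hθh
  have hCv : (0 : ℝ) < C - v := by linarith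
  have hvDe : v * De < 1 - θ ^ 2 := by nlinarith
  have ha0 : v / (C - v) < θ ^ 2 := by
    rw [div_lt_iff₀ hCv]
    have : θ ^ 2 * C = θ * (θ ^ 2 + 1) := by rw [hq]; ring
    nlinarith
  have ha0' : 0 < v / (C - v) := div_pos hv0 hCv
  have e1 : ∀ᶠ e in 𝓝 (0 : ℝ), (1 + v) * e < θ - v := by
    have hc : Continuous fun e : ℝ => (1 + v) * e := by fun_prop
    exact (hc.tendsto 0).eventually_lt_const (by linarith)
  have e2 : ∀ᶠ e in 𝓝 (0 : ℝ),
      (C : ℝ) ^ 2 * e ^ 2 + (v / (C - v)) ^ 2 + v * (De + 2 * e) * (1 + v / (C - v)) < 1 := by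
    have hc : Continuous fun e : ℝ =>
      (C : ℝ) ^ 2 * e ^ 2 + (v / (C - v)) ^ 2 + v * (De + 2 * e) * (1 + v / (C - v)) := by fun_prop
    refine (hc.tendsto 0).eventually_lt_const ?_
    have h1 : (v / (C - v)) ^ 2 < θ ^ 4 := by nlinarith
    have h2 : v * De * (1 + v / (C - v)) < (1 - θ ^ 2) * (1 + θ ^ 2) := by
      apply mul_lt_mul'' hvDe (by linarith) (by positivity) (by linarith)
    simp only [ne_eq, OfNat.ofNat_ne_zero, not_false_eq_true, zero_pow, mul_zero, zero_add,
      add_zero]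
    nlinarith
  have e3 : ∀ᶠ e in 𝓝 (0 : ℝ),
      (C : ℝ) ^ 2 * e ^ 2 + (θ - v * e) * (θ + C * e) + v * (De + 2 * e) < 1 := by
    have hc : Continuous fun e : ℝ =>
      (C : ℝ) ^ 2 * e ^ 2 + (θ - v * e) * (θ + C * e) + v * (De + 2 * e) := by fun_prop
    refine (hc.tendsto 0).eventually_lt_const ?_
    simp only [ne_eq, OfNat.ofNat_ne_zero, not_false_eq_true, zero_pow, mul_zero, zero_add,
      add_zero, sub_zero]
    nlinarith
  have e4 : ∀ᶠ e in 𝓝 (0 : ℝ), 4 ≤ C → 2 * v / (2 - v) * (De + 2 * e) < C - 2 := by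
    by_cases h4 : 4 ≤ C
    · have hc : Continuous fun e : ℝ => 2 * v / (2 - v) * (De + 2 * e) := by fun_prop
      have h4r : (4 : ℝ) ≤ C := by exact_mod_cast h4
      refine ((hc.tendsto 0).eventually_lt_const (u := (C : ℝ) - 2) ?_).mono fun e he _ => he
      simp only [mul_zero, add_zero]
      rw [div_mul_eq_mul_div, div_lt_iff₀ (by linarith)]
      nlinarith
    · exact Eventually.of_forall fun e h => absurd h h4
  have e5 : ∀ᶠ e in 𝓝 (0 : ℝ), C = 3 → 3 * v / (3 - v) * (De + 2 * e) < 1 := by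
    by_cases h4 : C = 3
    · have hc : Continuous fun e : ℝ => 3 * v / (3 - v) * (De + 2 * e) := by fun_prop
      refine ((hc.tendsto 0).eventually_lt_const (u := (1 : ℝ)) ?_).mono fun e he _ => he
      simp only [mul_zero, add_zero]
      rw [div_mul_eq_mul_div, div_lt_iff₀ (by linarith)]
      have := h3 h4
      nlinarith
    · exact Eventually.of_forall fun e h => absurd h h4
  obtain ⟨E, hE, hall⟩ := Metric.eventually_nhds_iff.mp
    (e1.and (e2.and (e3.and (e4.and e5))))
  refine ⟨E, hE, fun e he0 he => ?_⟩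
  have := @hall e (by rw [Real.dist_eq, sub_zero, abs_of_pos he0]; exact he)
  exact this

/-- the convexity step -/
theorem conv_step {C e θ De v j g : ℝ} (he : 0 < e) (hv0 : 0 < v) (hvC : v < C) (hDe0 : 0 < De)
    (hj : C ≤ j) (hje : j * e < θ) (hg : 0 < g) (hgj : (j - v) * g < v)
    (hA : C ^ 2 * e ^ 2 + (v / (C - v)) ^ 2 + v * (De + 2 * e) * (1 + v / (C - v)) < 1)
    (hB : C ^ 2 * e ^ 2 + (θ - v * e) * (θ + C * e) + v * (De + 2 * e) < 1) :
    (j * e) ^ 2 + g ^ 2 + j * g * (De + 2 * e) < 1 := by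
  set a := v / (j - v) with ha
  set a0 := v / (C - v) with ha0
  set m := θ - v * e with hm
  have hju : 0 < j - v := by linarith
  have hCu : 0 < C - v := by linarith
  have hm0 : 0 < m := by
    have : v * e < j * e := mul_lt_mul_of_pos_right (by linarith) he
    rw [hm]; linarith
  set τ := (j - C) * e / m with hτ
  have hτ0 : 0 ≤ τ := by rw [hτ]; exact div_nonneg (mul_nonneg (by linarith) he.le) hm0.le
  have hτm : τ * m = (j - C) * e := by rw [hτ]; field_simp
  have hτ1 : τ ≤ 1 := by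
    rw [hτ, div_le_one hm0, hm]
    have h0 : v * e ≤ C * e := mul_le_mul_of_nonneg_right hvC.le he.le
    linarith
  have hga : g < a := by rw [ha, lt_div_iff₀ hju]; linarith
  have ha_pos : 0 < a := div_pos hv0 hju
  have ha0_pos : 0 < a0 := div_pos hv0 hCu
  have haj : a * (j - v) = v := by rw [ha]; field_simp
  have ha0C : a0 * (C - v) = v := by rw [ha0]; field_simp
  -- (ii)
  have h2 : a ≤ a0 * (1 - τ) := by
    rw [ha, ha0, hτ, div_le_iff₀ hju]
    have h5 : v / (C - v) * (1 - (j - C) * e / m) * (j - v) =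
        v * ((m - (j - C) * e) * (j - v)) / ((C - v) * m) := by
      field_simp
    rw [h5, le_div_iff₀ (mul_pos hCu hm0)]
    apply mul_le_mul_of_nonneg_left _ hv0.le
    have h6 : 0 ≤ (j - C) * (m - (j - v) * e) := by
      apply mul_nonneg (by linarith)
      rw [hm]; linarith
    have h7 : (m - (j - C) * e) * (j - v) - (C - v) * m = (j - C) * (m - (j - v) * e) := by ring
    linarith
  have h2' : a ≤ a0 := by
    refine h2.trans ?_
    have h0 := mul_nonneg ha0_pos.le hτ0
    linarith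
  have h3 : a ^ 2 ≤ a0 ^ 2 * (1 - τ) := by
    have h0 : a * a ≤ a0 * (a0 * (1 - τ)) := mul_le_mul h2' h2 ha_pos.le ha0_pos.le
    linarith
  -- (i)
  have h1 : (j * e) ^ 2 ≤ C ^ 2 * e ^ 2 + τ * (m * (θ + C * e)) := by
    have h7 : τ * (m * (θ + C * e)) = (j - C) * e * (θ + C * e) := by rw [← mul_assoc, hτm]
    rw [h7]
    have h8 : (j - C) * e * (j * e + C * e) ≤ (j - C) * e * (θ + C * e) := by
      apply mul_le_mul_of_nonneg_left (by linarith) (mul_nonneg (by linarith) he.le)
    have h9 : (j * e) ^ 2 = C ^ 2 * e ^ 2 + (j - C) * e * (j * e + C * e) := by ring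
    linarith
  have hjg : j * g < v + v * a := by
    have h9 : j * g < j * a := mul_lt_mul_of_pos_left hga (by linarith)
    linarith
  have hK : 0 < De + 2 * e := by linarith
  have h10 : j * g * (De + 2 * e) < (v + v * a) * (De + 2 * e) := mul_lt_mul_of_pos_right hjg hK
  have h11 : v * a * (De + 2 * e) ≤ v * (a0 * (1 - τ)) * (De + 2 * e) :=
    mul_le_mul_of_nonneg_right (mul_le_mul_of_nonneg_left h2 hv0.le) hK.le
  have h12 : g ^ 2 < a ^ 2 := pow_lt_pow_left₀ hga hg.le (by norm_num)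
  have h13 : (1 - τ) * (C ^ 2 * e ^ 2 + a0 ^ 2 + v * (De + 2 * e) * (1 + a0)) ≤ (1 - τ) * 1 :=
    mul_le_mul_of_nonneg_left hA.le (by linarith)
  have h14 : τ * (C ^ 2 * e ^ 2 + m * (θ + C * e) + v * (De + 2 * e)) ≤ τ * 1 :=
    mul_le_mul_of_nonneg_left hB.le hτ0
  have h15 : C ^ 2 * e ^ 2 + τ * (m * (θ + C * e)) + a0 ^ 2 * (1 - τ) + v * (De + 2 * e) +
      v * (a0 * (1 - τ)) * (De + 2 * e) =
      (1 - τ) * (C ^ 2 * e ^ 2 + a0 ^ 2 + v * (De + 2 * e) * (1 + a0)) +
      τ * (C ^ 2 * e ^ 2 + m * (θ + C * e) + v * (De + 2 * e)) := by ring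
  have h16 : (v + v * a) * (De + 2 * e) = v * (De + 2 * e) + v * a * (De + 2 * e) := by ring
  linarith

/-- the main step -/
theorem core (C : ℤ) (hC : 3 ≤ C) (θ De v : ℝ) (hθ0 : 0 < θ) (hθh : θ < 1 / 2)
    (hq : θ ^ 2 + 1 = C * θ) (hDe : De * θ = 1 - θ ^ 2) (hDe0 : 0 < De) (h3 : C = 3 → 1 / 3 < θ)
    (hv0 : 0 < v) (hv : v < θ) :
    ∃ E : ℝ, 0 < E ∧ ∀ N s : ℤ, 0 < N → 1 / (N : ℝ) < E → 0 ≤ s → (s : ℝ) < θ * N →
      θ * N ≤ s + 1 → N ^ 2 - C * N * s + s ^ 2 = 1 → IsCoprime s N → ∀ j h : ℤ, 0 < j →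
      N ∣ h - j * s → ¬ N ∣ j →
      v * N ≤ j * |(h : ℝ)| ∧ (2 ≤ j → v * N ≤ (j - v) * |(h : ℝ)|) := by
  obtain ⟨E, hE, hall⟩ := exE C hC θ De v hθ0 hθh hq hDe hDe0 h3 hv0 hv
  refine ⟨E, hE, fun N s hN hNE hs hs1 hs2 hnorm hcop j h hj hdvd hnj => ?_⟩
  have hCr : (3 : ℝ) ≤ C := by exact_mod_cast hC
  have hvh : v < 1 / 2 := hv.trans hθh
  have hNr : (0 : ℝ) < N := by exact_mod_cast hN
  set e : ℝ := 1 / (N : ℝ) with he
  have he0 : 0 < e := by rw [he]; positivity
  have heN : e * N = 1 := by rw [he]; field_simp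
  obtain ⟨g1, g2, g3, g4, g5⟩ := hall e he0 hNE
  have hjr : (1 : ℝ) ≤ j := by exact_mod_cast hj
  have hsr : (0 : ℝ) ≤ s := by exact_mod_cast hs
  -- `v N + v + 1 < θ N`
  have hvN : v * N + (1 + v) < θ * N := by
    have h1 := mul_lt_mul_of_pos_right g1 hNr
    have h2 : (1 + v) * e * N = 1 + v := by rw [mul_assoc, heN, mul_one]
    rw [h2] at h1
    linarith
  -- `h ≠ 0`
  have hh0 : h ≠ 0 := by
    intro h0
    rw [h0, zero_sub, dvd_neg] at hdvd
    exact hnj (hcop.symm.dvd_of_dvd_mul_right hdvd)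
  have hh1 : (1 : ℝ) ≤ |(h : ℝ)| := by
    have : (1 : ℤ) ≤ |h| := Int.one_le_abs hh0
    exact_mod_cast this
  obtain ⟨l', hl'⟩ := hdvd
  set l : ℤ := -l' with hl
  have hhl : h = j * s - l * N := by rw [hl]; linarith [hl']
  -- the norm form
  have hform : (N : ℤ) ^ 2 * (j ^ 2 - C * j * l + l ^ 2) = j ^ 2 + h ^ 2 + j * h * (C * N - 2 * s) := by
    rw [hhl]
    linear_combination (j ^ 2) * hnorm
  have hformr : (N : ℝ) ^ 2 * ((j ^ 2 - C * j * l + l ^ 2 : ℤ) : ℝ) =
      (j : ℝ) ^ 2 + (h : ℝ) ^ 2 + j * h * (C * N - 2 * s) := by exact_mod_cast hform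
  have hDeC : (C : ℝ) - 2 * θ = De := by
    have : ((C : ℝ) - 2 * θ) * θ = De * θ := by rw [hDe]; linarith
    exact mul_right_cancel₀ hθ0.ne' this
  -- `T e`
  have hsN : 2 * (s : ℝ) < N := by
    have := mul_lt_mul_of_pos_right hθh hNr
    linarith
  have hT0 : (0 : ℝ) < C * N - 2 * s := by
    have := mul_le_mul_of_nonneg_right hCr hNr.le
    linarith
  have hTe : (C * N - 2 * s) * e ≤ De + 2 * e := by
    have h1 : (C * N - 2 * s : ℝ) ≤ De * N + 2 := by
      rw [← hDeC]; linarith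
    have h2 := mul_le_mul_of_nonneg_right h1 he0.le
    have h3 : (De * N + 2) * e = De + 2 * e := by
      have : De * N * e = De := by rw [mul_assoc, mul_comm (N : ℝ) e, heN, mul_one]
      rw [add_mul, this]
    rw [h3] at h2
    exact h2
  -- the divided form
  have hdiv : ((j ^ 2 - C * j * l + l ^ 2 : ℤ) : ℝ) =
      ((j : ℝ) * e) ^ 2 + ((h : ℝ) * e) ^ 2 + j * (h * e) * ((C * N - 2 * s) * e) := by
    have h1 : ((j ^ 2 - C * j * l + l ^ 2 : ℤ) : ℝ) =
        (e * N) ^ 2 * ((j ^ 2 - C * j * l + l ^ 2 : ℤ) : ℝ) := by rw [heN]; ring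
    rw [h1, mul_pow, mul_assoc, hformr]
    ring
  -- the second claim
  have claim2 : 2 ≤ j → v * N ≤ (j - v) * |(h : ℝ)| := by
    intro hj2
    have hj2r : (2 : ℝ) ≤ j := by exact_mod_cast hj2
    by_contra hcon
    push Not at hcon
    have hjv : (0 : ℝ) < j - v := by linarith
    -- (a)
    have hjs : (j : ℝ) < s := by
      by_contra h1
      push Not at h1
      have h2 : (j - v : ℝ) * 1 ≤ (j - v) * |(h : ℝ)| := mul_le_mul_of_nonneg_left hh1 hjv.le
      linarith
    have hjN : (j : ℝ) < θ * N := hjs.trans hs1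
    have hje : (j : ℝ) * e < θ := by
      have := mul_lt_mul_of_pos_right hjN he0
      rwa [mul_assoc θ, mul_comm (N : ℝ) e, heN, mul_one] at this
    have hge : (j - v) * (|(h : ℝ)| * e) < v := by
      have := mul_lt_mul_of_pos_right hcon he0
      rw [mul_assoc v, mul_comm (N : ℝ) e, heN, mul_one] at this
      linarith
    rcases lt_or_gt_of_ne hh0 with hneg | hpos
    · -- (d)
      have hhr : (h : ℝ) < 0 := by exact_mod_cast hneg
      rw [abs_of_neg hhr] at hge hcon
      set g : ℝ := -(h : ℝ) * e with hg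
      have hg0 : 0 < g := by rw [hg]; exact mul_pos (by linarith) he0
      have hgh : (h : ℝ) * e = -g := by rw [hg]; ring
      have hg13 : g < 1 / 3 := by
        have : (3 / 2) * g ≤ (j - v) * g := mul_le_mul_of_nonneg_right (by linarith) hg0.le
        have h2 : (j - v) * g < v := hge
        linarith
      have hje0 : 0 < (j : ℝ) * e := mul_pos (by linarith) he0
      have hTe0 : 0 < (C * N - 2 * s : ℝ) * e := mul_pos hT0 he0
      have hprod : 0 < (j : ℝ) * g * ((C * N - 2 * s) * e) := by positivity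
      have hlt1 : ((j ^ 2 - C * j * l + l ^ 2 : ℤ) : ℝ) < 1 := by
        rw [hdiv, hgh]
        have q1 : ((j : ℝ) * e) ^ 2 < (1 / 2) ^ 2 :=
          pow_lt_pow_left₀ (by linarith) hje0.le (by norm_num)
        have q2 : g ^ 2 < (1 / 3) ^ 2 := pow_lt_pow_left₀ hg13 hg0.le (by norm_num)
        have q3 : (j : ℝ) * -g * ((C * N - 2 * s) * e) = -(j * g * ((C * N - 2 * s) * e)) := by
          ring
        rw [q3, neg_sq]
        linarith
      have hle0 : j ^ 2 - C * j * l + l ^ 2 ≤ 0 := by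
        have : j ^ 2 - C * j * l + l ^ 2 < 1 := by exact_mod_cast hlt1
        omega
      have hM := form_le C hC j l hj hle0
      have hMr : ((j ^ 2 - C * j * l + l ^ 2 : ℤ) : ℝ) ≤ -((C : ℝ) - 2) := by exact_mod_cast hM
      rw [hdiv, hgh] at hMr
      have hkey : (C : ℝ) - 2 ≤ j * g * (De + 2 * e) := by
        have h1 : (j : ℝ) * g * ((C * N - 2 * s) * e) ≤ j * g * (De + 2 * e) :=
          mul_le_mul_of_nonneg_left hTe (by positivity)
        have q3 : (j : ℝ) * -g * ((C * N - 2 * s) * e) = -(j * g * ((C * N - 2 * s) * e)) := by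
          ring
        rw [q3, neg_sq] at hMr
        have q4 := sq_nonneg ((j : ℝ) * e)
        have q5 := sq_nonneg g
        linarith
      have hK : 0 < De + 2 * e := by linarith
      have hbd : ∀ c : ℝ, v < c → c ≤ j → (j : ℝ) * g * (De + 2 * e) <
          c * v / (c - v) * (De + 2 * e) := by
        intro c hvc hcj
        apply mul_lt_mul_of_pos_right _ hK
        rw [lt_div_iff₀ (by linarith)]
        have h1 : (j : ℝ) * g * (c - v) ≤ c * ((j - v) * g) := by
          have : 0 ≤ g * (v * (j - c)) := mul_nonneg hg0.le (mul_nonneg hv0.le (by linarith))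
          linarith
        have h2 : c * ((j - v) * g) < c * v := by
          apply mul_lt_mul_of_pos_left hge (by linarith)
        linarith
      rcases lt_or_ge C 4 with h4 | h4
      · have hC3 : C = 3 := by omega
        have hCr3 : (C : ℝ) = 3 := by rw [hC3]; norm_num
        rcases lt_or_ge j 3 with hj3 | hj3
        · have hj2' : j = 2 := by omega
          have hj2r' : (j : ℝ) = 2 := by rw [hj2']; norm_num
          have hl1 : 1 ≤ l := by
            by_contra hc
            push Not at hc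
            have : l ≤ 0 := by omega
            have h5 : 0 ≤ -l * N := mul_nonneg (by omega) hN.le
            have h6 : 0 ≤ j * s := mul_nonneg hj.le hs
            nlinarith
          have hh2 : (N : ℝ) - 2 * s ≤ -h := by
            have h5 : (N : ℤ) ≤ l * N := by nlinarith
            have h6 : N - 2 * s ≤ -h := by rw [hhl, hj2']; linarith
            exact_mod_cast h6
          have h7 : (1 - 2 * θ) * N < -(h : ℝ) := by linarith
          have h8 : 1 - 2 * θ < g := by
            have := mul_lt_mul_of_pos_right h7 he0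
            rw [mul_assoc, mul_comm (N : ℝ) e, heN, mul_one] at this
            rw [hg]; exact this
          rw [hj2r'] at hge
          rw [hCr3] at hq
          have k1 : (2 - v) * (1 - 2 * θ) < (2 - v) * g :=
            mul_lt_mul_of_pos_left h8 (by linarith)
          have k2 : 0 < (θ - v) * (2 - 2 * θ) := mul_pos (by linarith) (by linarith)
          have k3 : (2 - v) * g < v := hge
          have k4 : (2 - v) * (1 - 2 * θ) = v + (θ - v) * (2 - 2 * θ) + 2 * (θ ^ 2 + 1 - 3 * θ) := by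
            ring
          linarith
        · have hj3r : (3 : ℝ) ≤ j := by exact_mod_cast hj3
          have h5 := hbd 3 (by linarith) hj3r
          have h6 := g5 hC3
          rw [hCr3] at hkey
          linarith
      · have h5 := hbd 2 (by linarith) hj2r
        have h6 := g4 h4
        linarith
    · -- (b), (c)
      have hhr : (0 : ℝ) < h := by exact_mod_cast hpos
      rw [abs_of_pos hhr] at hge hcon
      rcases lt_or_ge j C with hjC | hjC
      · -- (b)
        have hjC' : (j : ℝ) ≤ C - 1 := by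
          have : j ≤ C - 1 := by omega
          exact_mod_cast this
        have hjsN : (j : ℝ) * s < N := by
          have h1 : (j : ℝ) * s ≤ (C - 1) * s := mul_le_mul_of_nonneg_right hjC' hsr
          have h2 : ((C : ℝ) - 1) * s ≤ (C - 1) * (θ * N) :=
            mul_le_mul_of_nonneg_left hs1.le (by linarith)
          have h3 : ((C : ℝ) - 1) * θ < 1 := by
            have : θ * θ < θ * 1 := mul_lt_mul_of_pos_left (by linarith) hθ0
            linarith
          have h4 : ((C : ℝ) - 1) * (θ * N) < N := by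
            have := mul_lt_mul_of_pos_right h3 hNr
            linarith
          linarith
        have hjsN' : j * s < N := by exact_mod_cast hjsN
        have hl0 : l ≤ 0 := by
          by_contra hc
          push Not at hc
          have : N ≤ l * N := by nlinarith
          linarith
        have hhjs : j * s ≤ h := by
          have : 0 ≤ -l * N := mul_nonneg (by omega) hN.le
          rw [hhl]; linarith
        have hhjsr : (j : ℝ) * s ≤ h := by exact_mod_cast hhjs
        have h1 : (2 : ℝ) * s ≤ h := by nlinarith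
        have h2 : (1 : ℝ) * h ≤ (j - v) * h := mul_le_mul_of_nonneg_right (by linarith) hhr.le
        linarith
      · -- (c)
        have hjCr : (C : ℝ) ≤ j := by exact_mod_cast hjC
        have hg0 : 0 < (h : ℝ) * e := mul_pos hhr he0
        have hpos' : (0 : ℝ) < ((j ^ 2 - C * j * l + l ^ 2 : ℤ) : ℝ) := by
          rw [hdiv]
          have : 0 < (C * N - 2 * s : ℝ) * e := mul_pos hT0 he0
          positivity
        have hge1 : (1 : ℝ) ≤ ((j ^ 2 - C * j * l + l ^ 2 : ℤ) : ℝ) := by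
          have : 0 < j ^ 2 - C * j * l + l ^ 2 := by exact_mod_cast hpos'
          have h1 : (1 : ℤ) ≤ j ^ 2 - C * j * l + l ^ 2 := by omega
          exact_mod_cast h1
        have hstep := conv_step he0 hv0 (by linarith) hDe0 hjCr hje hg0 hge g2 g3
        rw [hdiv] at hge1
        have h1 : (j : ℝ) * (h * e) * ((C * N - 2 * s) * e) ≤ j * (h * e) * (De + 2 * e) :=
          mul_le_mul_of_nonneg_left hTe (by positivity)
        linarith
  refine ⟨?_, claim2⟩
  rcases lt_or_ge j 2 with hj2 | hj2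
  · have hj1 : j = 1 := by omega
    have hj1r : (j : ℝ) = 1 := by rw [hj1]; norm_num
    rw [hj1r, one_mul]
    -- `s ≤ |h|`
    have hsN' : 2 * s < N := by exact_mod_cast hsN
    have h1 : s ≤ |h| := by
      rcases le_or_gt l 0 with hl0 | hl0
      · have h5 : 0 ≤ -l * N := mul_nonneg (by omega) hN.le
        have h6 : s ≤ h := by rw [hhl, hj1]; linarith
        exact h6.trans (le_abs_self h)
      · have h5 : N ≤ l * N := by nlinarith
        have h6 : s ≤ -h := by rw [hhl, hj1]; linarith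
        exact h6.trans (neg_le_abs h)
    have h1r : (s : ℝ) ≤ |(h : ℝ)| := by exact_mod_cast h1
    linarith
  · have h1 := claim2 hj2
    have h2 : ((j : ℝ) - v) * |(h : ℝ)| ≤ j * |(h : ℝ)| :=
      mul_le_mul_of_nonneg_right (by linarith) (abs_nonneg _)
    linarith

theorem ch_ge (hCh : Pool.Agent.TH970.MDS.StCh) (C : ℤ) (hC : 3 ≤ C) (n : ℕ) :
    (n : ℤ) ≤ Pool.Agent.TH970.MDS.ch C n := by
  obtain ⟨h0, h1, -⟩ := hCh C hC
  induction n with
  | zero => simpa using h0 0
  | succ n ih =>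
    have h2 := h1 n
    have h3 := h0 n
    push_cast
    linarith

/-- Lemma G. -/
theorem t_G : Pool.Agent.TH970.MDS.StTh → Pool.Agent.TH970.MDS.StCh →
    Pool.Agent.TH970.MDS.StG := by
  intro hTh hCh C hC v hv0 hv
  obtain ⟨hθ0, hθ1, hq, -, hDe, hDe0, hth3⟩ := hTh C hC
  obtain ⟨c1, c2, c3, c4, c5, c6, c7⟩ := hCh C hC
  have h5 : (2 : ℝ) < √5 := by
    rw [show (2 : ℝ) = √4 by rw [show (4 : ℝ) = 2 ^ 2 by norm_num]; simp]
    exact Real.sqrt_lt_sqrt (by norm_num) (by norm_num)
  have h5' : √5 < 7 / 3 := by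
    rw [Real.sqrt_lt' (by norm_num)]
    norm_num
  have hθh : Pool.Agent.TH970.MDS.th C < 1 / 2 := by linarith
  have h3 : C = 3 → 1 / 3 < Pool.Agent.TH970.MDS.th C := by
    intro h
    rw [h, hth3]
    linarith
  obtain ⟨E, hE, hcore⟩ := core C hC _ _ v hθ0 hθh hq hDe hDe0 h3 hv0 hv
  obtain ⟨K, hK⟩ := exists_nat_gt (1 / E)
  refine ⟨K, fun n hn j h hdvd hnj => ?_⟩
  set N := Pool.Agent.TH970.MDS.ch C (n + 1) with hN
  set s := Pool.Agent.TH970.MDS.ch C n with hs
  have hNn : ((n + 1 : ℕ) : ℤ) ≤ N := ch_ge hCh C hC (n + 1)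
  have hN0 : 0 < N := by
    have : (0 : ℤ) < ((n + 1 : ℕ) : ℤ) := by positivity
    linarith
  have hNr : (K : ℝ) < N := by
    have h1 : ((n + 1 : ℕ) : ℝ) ≤ (N : ℝ) := by exact_mod_cast hNn
    have h2 : (K : ℝ) ≤ n := by exact_mod_cast hn
    push_cast at h1
    linarith
  have hNE : 1 / (N : ℝ) < E := by
    have h1 : 1 / E < N := hK.trans hNr
    rw [div_lt_iff₀ hE] at h1
    rw [div_lt_iff₀ (by exact_mod_cast hN0)]
    linarith
  have hpow := c6 n
  have hpow0 : 0 < Pool.Agent.TH970.MDS.th C ^ (n + 1) := pow_pos hθ0 _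
  have hpow1 : Pool.Agent.TH970.MDS.th C ^ (n + 1) ≤ 1 := pow_le_one₀ hθ0.le (by linarith)
  have hs1 : (s : ℝ) < Pool.Agent.TH970.MDS.th C * N := by
    rw [← hN, ← hs] at hpow; linarith
  have hs2 : Pool.Agent.TH970.MDS.th C * N ≤ s + 1 := by
    rw [← hN, ← hs] at hpow; linarith
  have hmain := hcore N s hN0 hNE (c1 n) hs1 hs2 (c3 n) (c5 n)
  have hj0 : j ≠ 0 := by
    rintro rfl
    exact hnj (dvd_zero _)
  rcases lt_or_gt_of_ne hj0 with hneg | hpos
  · obtain ⟨g1, g2⟩ := hmain (-j) (-h) (by omega)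
      (by have := dvd_neg.mpr hdvd; rwa [show -(h - j * s) = -h - -j * s by ring] at this)
      (by rwa [dvd_neg])
    have hjr : (j : ℝ) < 0 := by exact_mod_cast hneg
    have e1 : |(j : ℝ)| = ((-j : ℤ) : ℝ) := by rw [abs_of_neg hjr]; push_cast; rfl
    have e2 : |((-h : ℤ) : ℝ)| = |(h : ℝ)| := by push_cast; exact abs_neg _
    rw [e2] at g1 g2
    rw [e1]
    refine ⟨g1, fun h2 => g2 ?_⟩
    rw [abs_of_neg hneg] at h2
    exact h2
  · obtain ⟨g1, g2⟩ := hmain j h hpos hdvd hnj
    have hjr : (0 : ℝ) < j := by exact_mod_cast hpos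
    rw [abs_of_pos hjr]
    refine ⟨g1, fun h2 => g2 ?_⟩
    rw [abs_of_pos hpos] at h2
    exact h2

end Pool.Agent.TH286.MDS
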